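import Pool.Agent.Helper20.P3F.St1

/-! Project P3F, module ONE3: one hit (copy of Helper2/EQ/M_ONE with `p ≤ 3`). -/

set_option autoImplicit false

open MeasureTheory Set Filter Topology
open scoped ENNReal RealInnerProductSpace

namespace Pool.Agent.Helper4.P3F

open Pool.Agent.Helper68.LM (Pl BB Bd Av HL ft fm DQ)
open Pool.Agent.Helper20.RG Pool.Agent.Helper20.EQ Pool.Agent.Helper20.P3F
open Pool.Agent.Helper68.EP (elt GapP)

private theorem measAv (ν : Measure Pl) [SFinite ν] (t : ℝ) (g : Pl → ℝ) (hg : Measurable g) :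
    Measurable (Av ν t g) := by
  have h1 : StronglyMeasurable (Function.uncurry fun (x y : Pl) => g (x - t • y)) := by
    apply Measurable.stronglyMeasurable
    exact hg.comp (by fun_prop)
  exact h1.integral_prod_right.measurable

private instance instbx : SFinite bx := by unfold bx; infer_instance
private instance instsg (s : ℝ) : SFinite (sg s) := by unfold sg; infer_instance

private theorem measZc (c : Pl) (φ τ : ℝ → ℝ) (u w : ℕ) (k : ℤ) (j : ℕ) (g : Pl → ℝ)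
    (hg : Measurable g) : Measurable (Zc c φ τ u w k j g) := by
  have hY : ∀ (s : ℝ) (c : Pl) (m : ℕ) (l : ℝ), Measurable (Y s c m l k g) := by
    intro s c m l
    unfold Y
    exact (measAv (sg s) _ _ (measAv bx _ _ hg)).comp (by fun_prop)
  unfold Zc
  exact (hY _ _ _ _).sub (hY _ _ _ _)

private theorem cheb (c : Pl) (φ τ : ℝ → ℝ) (u ρ : ℕ) (k : ℤ) (g : Pl → ℝ) (hg : Measurable g) :
    volume {x | (Hh c φ τ u ρ k g x).Nonempty} ≤
      ENNReal.ofReal ((4 : ℝ) ^ (ρ + 1)) *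
        ∑ j ∈ Finset.range (2 ^ u), ∫⁻ x, ‖Zc c φ τ u 0 k j g x‖ₑ ^ 2 := by
  have hsub : {x | (Hh c φ τ u ρ k g x).Nonempty} ⊆ ⋃ j ∈ Finset.range (2 ^ u),
      {x | ENNReal.ofReal (((4 : ℝ) ^ (ρ + 1))⁻¹) ≤ ‖Zc c φ τ u 0 k j g x‖ₑ ^ 2} := by
    rintro x ⟨j, hj, hx⟩
    simp only [mem_iUnion, Finset.mem_range, mem_setOf_eq]
    refine ⟨j, hj, ?_⟩
    have e1 : ‖Zc c φ τ u 0 k j g x‖ₑ = ENNReal.ofReal |Zc c φ τ u 0 k j g x| := by
      rw [← Real.norm_eq_abs, ofReal_norm_eq_enorm]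
    rw [e1, ← ENNReal.ofReal_pow (abs_nonneg _)]
    apply ENNReal.ofReal_le_ofReal
    have e2 : ((4 : ℝ) ^ (ρ + 1))⁻¹ = ((2 : ℝ) ^ (-((ρ : ℤ) + 1))) ^ 2 := by
      rw [zpow_neg, inv_pow]
      congr 1
      have : ((ρ : ℤ) + 1) = ((ρ + 1 : ℕ) : ℤ) := by push_cast; ring
      rw [this, zpow_natCast, ← pow_mul, mul_comm, pow_mul]
      norm_num
    rw [e2]
    exact pow_le_pow_left₀ (by positivity) hx 2
  refine (measure_mono hsub).trans ?_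
  refine (measure_biUnion_finset_le _ _).trans ?_
  rw [Finset.mul_sum]
  refine Finset.sum_le_sum fun j _ => ?_
  have hm : AEMeasurable (fun x => ‖Zc c φ τ u 0 k j g x‖ₑ ^ 2) volume :=
    ((measZc c φ τ u 0 k j g hg).enorm.pow_const 2).aemeasurable
  have h1 := mul_meas_ge_le_lintegral₀ hm (ENNReal.ofReal (((4 : ℝ) ^ (ρ + 1))⁻¹))
  have h4 : (0 : ℝ) < 4 ^ (ρ + 1) := by positivity
  calc volume {x | ENNReal.ofReal (((4 : ℝ) ^ (ρ + 1))⁻¹) ≤ ‖Zc c φ τ u 0 k j g x‖ₑ ^ 2}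
      = ENNReal.ofReal ((4 : ℝ) ^ (ρ + 1)) * (ENNReal.ofReal (((4 : ℝ) ^ (ρ + 1))⁻¹) *
        volume {x | ENNReal.ofReal (((4 : ℝ) ^ (ρ + 1))⁻¹) ≤ ‖Zc c φ τ u 0 k j g x‖ₑ ^ 2}) := by
        rw [← mul_assoc, ← ENNReal.ofReal_mul h4.le, mul_inv_cancel₀ h4.ne', ENNReal.ofReal_one,
          one_mul]
    _ ≤ _ := by gcongr

theorem hONE3 (hGDL : StGDL) (hRIX : StRIX) (hMIQ : StMIQ) : Pool.Agent.Helper20.P3F.StONE3 := by
  intro φ τ A p c hφ hA hG hp2 hp3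
  obtain ⟨CM, hCM, HM⟩ := hMIQ φ τ A p c hφ hA hG (by linarith)
  refine ⟨4 * CM, by positivity, fun t ρ f hf hf0 => ?_⟩
  have hB : (0 : ℝ) ≤ CM * 4 ^ (ρ + 1) := by positivity
  have h4 : (0 : ℝ) ≤ 4 ^ (ρ + 1) := by positivity
  have h1 := hRIX p (CM * 4 ^ (ρ + 1))
    (fun u g => if 2 ≤ u then ENNReal.ofReal ((4 : ℝ) ^ (ρ + 1)) * MI c φ τ u g else 0)
    (by linarith) hB (by
      intro g hg hg01
      have h2 := HM g hg
      have e1 : ∀ u : ℕ, ENNReal.ofReal ((2 : ℝ) ^ (-(p * u))) *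
          (if 2 ≤ u then ENNReal.ofReal ((4 : ℝ) ^ (ρ + 1)) * MI c φ τ u g else 0)
          = ENNReal.ofReal ((4 : ℝ) ^ (ρ + 1)) * (if 2 ≤ u then
            ENNReal.ofReal ((2 : ℝ) ^ (-(p * u))) * ∑' k : ℤ, ∑ j ∈ Finset.range (2 ^ u),
              ∫⁻ x, ‖Zc c φ τ u 0 k j g x‖ₑ ^ 2 else 0) := by
        intro u
        split_ifs
        · unfold MI; ring
        · simp
      simp only [e1]
      rw [ENNReal.tsum_mul_left]
      calc ENNReal.ofReal ((4 : ℝ) ^ (ρ + 1)) * _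
          ≤ ENNReal.ofReal ((4 : ℝ) ^ (ρ + 1)) * (ENNReal.ofReal CM * ∫⁻ x, ‖g x‖ₑ ^ 2) := by
            gcongr
        _ = _ := by
            rw [← mul_assoc, ← ENNReal.ofReal_mul h4, mul_comm ((4 : ℝ) ^ (ρ + 1)) CM]) f t ρ hf hf0
  have e3 : (2 : ℝ) ^ (p * ((t : ℝ) - ρ)) * (CM * 4 ^ (ρ + 1))
      = 4 * CM * (2 : ℝ) ^ (p * t - (p - 2) * ρ) := by
    have e4 : (4 : ℝ) ^ (ρ + 1) = 4 * (2 : ℝ) ^ (2 * (ρ : ℝ)) := by
      rw [pow_succ, mul_comm, Real.rpow_mul (by norm_num), Real.rpow_natCast]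
      norm_num
    have e5 : (2 : ℝ) ^ (p * t - (p - 2) * ρ)
        = (2 : ℝ) ^ (p * ((t : ℝ) - ρ)) * (2 : ℝ) ^ (2 * (ρ : ℝ)) := by
      rw [← Real.rpow_add (by norm_num)]
      congr 1
      ring
    rw [e4, e5]
    ring
  rw [e3] at h1
  refine le_trans ?_ h1
  refine ENNReal.tsum_le_tsum fun l => ?_
  gcongr with u
  split_ifs
  · have hm : Measurable (lev f (l - t + u + ρ)) := ((hGDL.1 f _ hf hf0).1).1
    calc ∑' k : ℤ, volume {x | (Hh c φ τ u ρ k (lev f (l - t + u + ρ)) x).Nonempty}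
        ≤ ∑' k : ℤ, ENNReal.ofReal ((4 : ℝ) ^ (ρ + 1)) *
          ∑ j ∈ Finset.range (2 ^ u), ∫⁻ x, ‖Zc c φ τ u 0 k j (lev f (l - t + u + ρ)) x‖ₑ ^ 2 :=
          ENNReal.tsum_le_tsum fun k => cheb c φ τ u ρ k _ hm
      _ = _ := by rw [ENNReal.tsum_mul_left]; rfl
  · exact le_rfl

end Pool.Agent.Helper4.P3F
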